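import Mathlib

/-! Boxes in dense subsets of a cube with polynomial size bounds, and concatenation of gadgets. -/

set_option autoImplicit false

namespace Pool.Agent.Work.MP_e10cd8_co.Tp

open Finset

theorem g42_greedy {ι ξ : Type*} [DecidableEq ι] (I : Finset ι) (R : ι → ξ → Prop)
    [∀ i x, Decidable (R i x)] (D Q : ℕ) (hD : 0 < D)
    (hL : 4 * D * Q ≤ I.card) (Y : Finset ξ)
    (hY : ∀ x ∈ Y, I.card ≤ 2 * D * (I.filter (fun i => R i x)).card) :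
    ∀ k ≤ Q, ∃ T ⊆ I, T.card = k ∧ ∃ Z ⊆ Y, Y.card ≤ (4 * D) ^ k * Z.card ∧
      ∀ i ∈ T, ∀ x ∈ Z, R i x := by
  intro k
  induction k with
  | zero => exact fun _ => ⟨∅, by simp, by simp, Y, Subset.rfl, by simp, by simp⟩
  | succ k ih =>
    intro hk
    obtain ⟨T, hTI, hT, Z, hZY, hZ, hR⟩ := ih (by omega)
    have hQ : 4 * D * (k + 1) ≤ I.card := (Nat.mul_le_mul_left _ hk).trans hL
    have hne : (I \ T).Nonempty := by
      rw [← card_pos, card_sdiff_of_subset hTI, hT]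
      have : k + 1 ≤ 4 * D * (k + 1) := Nat.le_mul_of_pos_left _ (by omega)
      omega
    have h1 : ∑ i ∈ I \ T, (Z.filter (fun x => R i x)).card =
        ∑ x ∈ Z, ((I \ T).filter (fun i => R i x)).card := by
      simp only [card_filter]
      exact sum_comm
    have h2 : ∀ x ∈ Z, I.card ≤ 4 * D * ((I \ T).filter (fun i => R i x)).card := by
      intro x hx
      have h3 := hY x (hZY hx)
      have h4 : (I.filter (fun i => R i x)).card ≤
          ((I \ T).filter (fun i => R i x)).card + k := by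
        rw [← hT]
        refine le_trans (card_le_card ?_) (card_union_le _ _)
        intro i hi
        rw [mem_filter] at hi
        by_cases h : i ∈ T
        · exact mem_union_right _ h
        · exact mem_union_left _ (mem_filter.2 ⟨mem_sdiff.2 ⟨hi.1, h⟩, hi.2⟩)
      have h5 := Nat.mul_le_mul_left (2 * D) h4
      nlinarith
    have h6 : ∑ i ∈ I \ T, Z.card ≤ ∑ i ∈ I \ T, 4 * D * (Z.filter (fun x => R i x)).card := by
      rw [← mul_sum, h1, mul_sum, sum_const, smul_eq_mul]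
      calc (I \ T).card * Z.card ≤ I.card * Z.card :=
            Nat.mul_le_mul_right _ (card_le_card sdiff_subset)
        _ = ∑ x ∈ Z, I.card := by rw [sum_const, smul_eq_mul, mul_comm]
        _ ≤ _ := sum_le_sum h2
    obtain ⟨i, hi, h7⟩ := exists_le_of_sum_le hne h6
    rw [mem_sdiff] at hi
    refine ⟨insert i T, insert_subset hi.1 hTI, by rw [card_insert_of_notMem hi.2, hT],
      Z.filter (fun x => R i x), (filter_subset _ _).trans hZY, ?_, ?_⟩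
    · calc Y.card ≤ (4 * D) ^ k * Z.card := hZ
        _ ≤ (4 * D) ^ k * (4 * D * (Z.filter (fun x => R i x)).card) := Nat.mul_le_mul_left _ h7
        _ = _ := by ring
    · intro j hj x hx
      rw [mem_filter] at hx
      rcases mem_insert.1 hj with rfl | hj
      · exact hx.2
      · exact hR j hj x hx.1

theorem g42_common {ι ξ : Type*} [DecidableEq ι] (I : Finset ι) (X : Finset ξ)
    (R : ι → ξ → Prop) [∀ i x, Decidable (R i x)] (D Q : ℕ)
    (hD : 0 < D) (hL : 4 * D * Q ≤ I.card) (hI : 0 < I.card)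
    (h : I.card * X.card ≤ D * ∑ x ∈ X, (I.filter (fun i => R i x)).card) :
    ∃ T ⊆ I, T.card = Q ∧ ∃ Z ⊆ X, X.card ≤ (4 * D) ^ (Q + 1) * Z.card ∧
      ∀ i ∈ T, ∀ x ∈ Z, R i x := by
  obtain ⟨Y, hY⟩ : ∃ Y, Y = X.filter
      (fun x => I.card ≤ 2 * D * (I.filter (fun i => R i x)).card) := ⟨_, rfl⟩
  have h1 : 2 * D * ∑ x ∈ X, (I.filter (fun i => R i x)).card ≤
      2 * D * I.card * Y.card + I.card * X.card := by
    have h2 : ∀ x ∈ X, 2 * D * (I.filter (fun i => R i x)).card ≤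
        (if I.card ≤ 2 * D * (I.filter (fun i => R i x)).card then 2 * D * I.card else 0) +
          I.card := by
      intro x _
      split_ifs with h3
      · have := Nat.mul_le_mul_left (2 * D) (card_filter_le I (fun i => R i x))
        omega
      · omega
    rw [mul_sum]
    refine (sum_le_sum h2).trans (le_of_eq ?_)
    rw [sum_add_distrib, ← sum_filter, ← hY, sum_const, sum_const, smul_eq_mul, smul_eq_mul]
    ring
  have h4 : X.card ≤ 2 * D * Y.card := by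
    refine Nat.le_of_mul_le_mul_left ?_ hI
    nlinarith
  obtain ⟨T, hTI, hT, Z, hZY, hZ, hR⟩ := g42_greedy I R D Q hD hL Y
    (fun x hx => by rw [hY] at hx; exact (mem_filter.1 hx).2) Q le_rfl
  refine ⟨T, hTI, hT, Z, hZY.trans (by rw [hY]; exact filter_subset _ _), ?_, hR⟩
  calc X.card ≤ 2 * D * Y.card := h4
    _ ≤ 4 * D * ((4 * D) ^ Q * Z.card) := Nat.mul_le_mul (by omega) hZ
    _ = _ := by ring

/-- The side length that forces a box of side `Q` at density `1 / D`. -/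
def g42_bs (D Q : ℕ) : ℕ := (4 * (4 * D) ^ (Q + 1)) ^ (Q + 1) * Q + 1

theorem g42_bs_mono {D D' : ℕ} (h : D ≤ D') (Q : ℕ) : g42_bs D Q ≤ g42_bs D' Q := by
  unfold g42_bs
  gcongr

theorem g42_bs_ge {D : ℕ} (hD : 0 < D) (Q : ℕ) :
    4 * (4 * D) ^ (Q + 1) * Q ≤ g42_bs D Q ∧ 4 * D * Q ≤ g42_bs D Q := by
  have h1 : 4 * D ≤ (4 * D) ^ (Q + 1) := Nat.le_self_pow (by omega) _
  have h2 : 4 * (4 * D) ^ (Q + 1) ≤ (4 * (4 * D) ^ (Q + 1)) ^ (Q + 1) :=
    Nat.le_self_pow (by omega) _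
  have h3 := Nat.mul_le_mul_right Q h2
  have h4 : 4 * D * Q ≤ 4 * (4 * D) ^ (Q + 1) * Q := Nat.mul_le_mul_right Q (by omega)
  unfold g42_bs
  omega

theorem g42_box {α : Type*} (A B C : Finset α) (L : ℕ) (hA : A.card = L) (hB : B.card = L)
    (hC : C.card = L) (S : Finset (α × α × α)) (hS : S ⊆ A ×ˢ B ×ˢ C) (D Q : ℕ) (hD : 0 < D)
    (h : L ^ 3 ≤ D * S.card) (hL : g42_bs D Q ≤ L) :
    ∃ A' B' C' : Finset α, A'.card = Q ∧ B'.card = Q ∧ C'.card = Q ∧ A' ×ˢ B' ×ˢ C' ⊆ S := by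
  classical
  have hL0 : 0 < L := lt_of_lt_of_le (Nat.succ_pos _) hL
  obtain ⟨b1, b2⟩ := g42_bs_ge hD Q
  have e1 : S.card ≤ ∑ x ∈ B ×ˢ C, (A.filter (fun a => (a, x) ∈ S)).card := by
    rw [card_eq_sum_card_fiberwise (f := fun p : α × α × α => p.2) (t := B ×ˢ C)
      (fun p hp => (mem_product.1 (hS hp)).2)]
    refine sum_le_sum fun x _ => card_le_card_of_injOn (fun p => p.1) ?_ ?_
    · intro p hp
      have hp' := mem_filter.1 (mem_coe.1 hp)
      refine mem_coe.2 (mem_filter.2 ⟨(mem_product.1 (hS hp'.1)).1, ?_⟩)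
      rw [← hp'.2]
      exact hp'.1
    · intro p hp q hq e
      exact Prod.ext e ((mem_filter.1 (mem_coe.1 hp)).2.trans (mem_filter.1 (mem_coe.1 hq)).2.symm)
  obtain ⟨T1, -, hT1, Y, hY, hYc, hR1⟩ := g42_common A (B ×ˢ C) (fun a x => (a, x) ∈ S) D Q hD
    (by omega) (by omega) (by
      rw [card_product, hA, hB, hC]
      calc L * (L * L) = L ^ 3 := by ring
        _ ≤ D * S.card := h
        _ ≤ _ := Nat.mul_le_mul_left _ e1)
  have e2 : Y.card ≤ ∑ x ∈ C, (B.filter (fun b => (b, x) ∈ Y)).card := by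
    rw [card_eq_sum_card_fiberwise (f := fun p : α × α => p.2) (t := C)
      (fun p hp => (mem_product.1 (hY hp)).2)]
    refine sum_le_sum fun x _ => card_le_card_of_injOn (fun p => p.1) ?_ ?_
    · intro p hp
      have hp' := mem_filter.1 (mem_coe.1 hp)
      refine mem_coe.2 (mem_filter.2 ⟨(mem_product.1 (hY hp'.1)).1, ?_⟩)
      rw [← hp'.2]
      exact hp'.1
    · intro p hp q hq e
      exact Prod.ext e ((mem_filter.1 (mem_coe.1 hp)).2.trans (mem_filter.1 (mem_coe.1 hq)).2.symm)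
  obtain ⟨T2, -, hT2, Z, -, hZc, hR2⟩ := g42_common B C (fun b x => (b, x) ∈ Y)
    ((4 * D) ^ (Q + 1)) Q (by positivity) (by omega) (by omega) (by
      rw [card_product] at hYc
      exact hYc.trans (Nat.mul_le_mul_left _ e2))
  have hZ : Q ≤ Z.card := by
    refine Nat.le_of_mul_le_mul_left (c := (4 * (4 * D) ^ (Q + 1)) ^ (Q + 1)) ?_ (by positivity)
    unfold g42_bs at hL
    omega
  obtain ⟨T3, hT3Z, hT3⟩ := exists_subset_card_eq hZ
  refine ⟨T1, T2, T3, hT1, hT2, hT3, fun p hp => ?_⟩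
  rw [mem_product, mem_product] at hp
  exact hR1 p.1 hp.1 p.2 (hR2 p.2.1 hp.2.1 p.2.2 (hT3Z hp.2.2))

/-- A gadget exists in every box of side `Q`. -/
def g42_Gad (α : Type) (Q : ℕ) : Prop :=
  ∀ (A B C : Finset α), A.card = Q → B.card = Q → C.card = Q →
    ∀ r : α × α × α → α × α × α → Prop,
      (∀ p ∈ A ×ˢ B ×ˢ C, ∀ q ∈ A ×ˢ B ×ˢ C, p ≠ q → r p q ∨ r q p) →
      ∃ (l : List (α × α × α)) (A' B' C' : Finset α), l.Pairwise r ∧
        (∀ p ∈ l, p ∈ A ×ˢ B ×ˢ C ∧ p.1 ∈ A' ∧ p.2.1 ∈ B' ∧ p.2.2 ∈ C') ∧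
        A'.card + B'.card + C'.card + 1 ≤ l.length

theorem g42_rounds {α : Type} [Fintype α] (Q : ℕ) (hG : g42_Gad α Q)
    (r : α × α × α → α × α × α → Prop) (k : ℕ) :
    ∀ (D : ℕ) (S : Finset (α × α × α)), 0 < D → (∀ p ∈ S, ∀ q ∈ S, p ≠ q → r p q ∨ r q p) →
      g42_bs (D * (2 * 2 ^ (g42_bs 2 Q ^ 3)) ^ k) (g42_bs 2 Q) ≤ Fintype.card α →
      Fintype.card α ^ 3 ≤ D * S.card →
      ∃ (l : List (α × α × α)) (A B C : Finset α), l.Pairwise r ∧
        (∀ p ∈ l, p ∈ S ∧ p.1 ∈ A ∧ p.2.1 ∈ B ∧ p.2.2 ∈ C) ∧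
        A.card + B.card + C.card + k ≤ l.length := by
  classical
  obtain ⟨Q1, hQ1⟩ : ∃ Q1, Q1 = g42_bs 2 Q := ⟨_, rfl⟩
  rw [← hQ1]
  induction k with
  | zero => exact fun D S _ _ _ _ => ⟨[], ∅, ∅, ∅, by simp, by simp, by simp⟩
  | succ k ih =>
    intro D S hD hr hL hS
    have hL1 : g42_bs D Q1 ≤ Fintype.card α :=
      (g42_bs_mono (Nat.le_mul_of_pos_right _ (by positivity)) Q1).trans hL
    obtain ⟨A, B, C, hA, hB, hC, hbox⟩ := g42_box univ univ univ (Fintype.card α) card_univ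
      card_univ card_univ S (fun p _ => by simp) D Q1 hD hS hL1
    obtain ⟨X, hX⟩ : ∃ X, X = A ×ˢ B ×ˢ C := ⟨_, rfl⟩
    have hXc : X.card = Q1 ^ 3 := by rw [hX, card_product, card_product, hA, hB, hC]; ring
    have h1 : 2 * Q1 ^ 3 ≤ S.card := by
      have h2 : 4 * D * Q1 ≤ Fintype.card α := (g42_bs_ge hD Q1).2.trans hL1
      have h3 := (Nat.pow_le_pow_left h2 3).trans hS
      refine Nat.le_of_mul_le_mul_left (le_trans ?_ h3) hD
      calc D * (2 * Q1 ^ 3) = 2 * D * Q1 ^ 3 := by ring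
        _ ≤ (4 * D) ^ 3 * Q1 ^ 3 :=
          Nat.mul_le_mul_right _ (le_trans (by omega) (Nat.le_self_pow (by norm_num) (4 * D)))
        _ = _ := by ring
    have h4 : S.card ≤ 2 * (S \ X).card := by
      rw [card_sdiff_of_subset (hX ▸ hbox), hXc]
      omega
    have h5 : ∑ P ∈ X.powerset, (S \ X).card ≤ ∑ P ∈ X.powerset,
        2 ^ (Q1 ^ 3) * ((S \ X).filter (fun p => X.filter (fun b => r b p) = P)).card := by
      rw [← mul_sum, ← card_eq_sum_card_fiberwise (f := fun p => X.filter (fun b => r b p))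
        (fun p _ => mem_coe.2 (mem_powerset.2 (filter_subset _ _))), sum_const, card_powerset,
        hXc, smul_eq_mul]
    obtain ⟨P, hP, h6⟩ := exists_le_of_sum_le (powerset_nonempty X) h5
    rw [mem_powerset] at hP
    obtain ⟨S', hS'⟩ : ∃ S', S' = (S \ X).filter (fun p => X.filter (fun b => r b p) = P) :=
      ⟨_, rfl⟩
    rw [← hS'] at h6
    have hm : ∀ p ∈ S', p ∈ S ∧ p ∉ X ∧ ∀ b ∈ X, (b ∈ P ↔ r b p) := by
      intro p hp
      rw [hS', mem_filter, mem_sdiff] at hp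
      refine ⟨hp.1.1, hp.1.2, fun b hb => ?_⟩
      rw [← hp.2, mem_filter]
      exact ⟨fun h => h.2, fun h => ⟨hb, h⟩⟩
    obtain ⟨l, A2, B2, C2, hl, hl2, hl3⟩ := ih (D * (2 * 2 ^ (Q1 ^ 3))) S' (by positivity)
      (fun p hp q hq => hr p (hm p hp).1 q (hm q hq).1)
      (by rw [mul_assoc, ← pow_succ']; exact hL)
      (calc Fintype.card α ^ 3 ≤ D * S.card := hS
        _ ≤ D * (2 * (2 ^ (Q1 ^ 3) * S'.card)) :=
          Nat.mul_le_mul_left _ (h4.trans (Nat.mul_le_mul_left _ h6))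
        _ = _ := by ring)
    have key : ∀ P' ⊆ X, Q1 ^ 3 ≤ 2 * P'.card →
        ∃ (g : List (α × α × α)) (A' B' C' : Finset α), g.Pairwise r ∧
          (∀ p ∈ g, p ∈ P' ∧ p.1 ∈ A' ∧ p.2.1 ∈ B' ∧ p.2.2 ∈ C') ∧
          A'.card + B'.card + C'.card + 1 ≤ g.length := by
      intro P' hP' hc
      obtain ⟨A3, B3, C3, hA3, hB3, hC3, hb3⟩ := g42_box A B C Q1 hA hB hC P' (hX ▸ hP') 2 Q
        (by norm_num) hc hQ1.ge
      obtain ⟨g, A', B', C', hg, hg2, hg3⟩ := hG A3 B3 C3 hA3 hB3 hC3 r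
        (fun p hp q hq => hr p (hbox (hX ▸ hP' (hb3 hp))) q (hbox (hX ▸ hP' (hb3 hq))))
      exact ⟨g, A', B', C', hg, fun p hp => ⟨hb3 (hg2 p hp).1, (hg2 p hp).2⟩, hg3⟩
    have fin : ∀ (g : List (α × α × α)) (A' B' C' : Finset α) (l' : List (α × α × α)),
        (∀ p ∈ g, p ∈ X ∧ p.1 ∈ A' ∧ p.2.1 ∈ B' ∧ p.2.2 ∈ C') →
        A'.card + B'.card + C'.card + 1 ≤ g.length → l'.Pairwise r →
        (∀ p ∈ l', p ∈ g ∨ p ∈ l) → l'.length = g.length + l.length →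
        ∃ (l : List (α × α × α)) (A B C : Finset α), l.Pairwise r ∧
          (∀ p ∈ l, p ∈ S ∧ p.1 ∈ A ∧ p.2.1 ∈ B ∧ p.2.2 ∈ C) ∧
          A.card + B.card + C.card + (k + 1) ≤ l.length := by
      intro g A' B' C' l' hg2 hg3 hp hmem hlen
      refine ⟨l', A' ∪ A2, B' ∪ B2, C' ∪ C2, hp, fun p hp => ?_, ?_⟩
      · rcases hmem p hp with h | h
        · obtain ⟨a, b, c, d⟩ := hg2 p h
          exact ⟨hbox (hX ▸ a), mem_union_left _ b, mem_union_left _ c, mem_union_left _ d⟩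
        · obtain ⟨a, b, c, d⟩ := hl2 p h
          exact ⟨(hm p a).1, mem_union_right _ b, mem_union_right _ c, mem_union_right _ d⟩
      · have := card_union_le A' A2
        have := card_union_le B' B2
        have := card_union_le C' C2
        omega
    by_cases hc : Q1 ^ 3 ≤ 2 * P.card
    · obtain ⟨g, A', B', C', hg, hg2, hg3⟩ := key P hP hc
      refine fin g A' B' C' (g ++ l) (fun p hp => ⟨hP (hg2 p hp).1, (hg2 p hp).2⟩) hg3 ?_
        (fun p hp => List.mem_append.1 hp) List.length_append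
      refine List.pairwise_append.2 ⟨hg, hl, fun b hb p hp => ?_⟩
      exact ((hm p (hl2 p hp).1).2.2 b (hP (hg2 b hb).1)).1 (hg2 b hb).1
    · obtain ⟨g, A', B', C', hg, hg2, hg3⟩ := key (X \ P) sdiff_subset (by
        rw [card_sdiff_of_subset hP, hXc]
        omega)
      refine fin g A' B' C' (l ++ g) (fun p hp => ⟨(mem_sdiff.1 (hg2 p hp).1).1, (hg2 p hp).2⟩)
        hg3 ?_ (fun p hp => (List.mem_append.1 hp).symm) (by rw [List.length_append, add_comm])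
      refine List.pairwise_append.2 ⟨hl, hg, fun p hp b hb => ?_⟩
      obtain ⟨m1, m2, m3⟩ := hm p (hl2 p hp).1
      obtain ⟨n1, n2⟩ := mem_sdiff.1 (hg2 b hb).1
      refine (hr p m1 b (hbox (hX ▸ n1)) (fun e => m2 (e ▸ n1))).resolve_right fun h => ?_
      exact n2 ((m3 b n1).2 h)

theorem g42_bs_pow (e Q : ℕ) : g42_bs (2 ^ e) Q ≤ 2 ^ ((e + 4) * (Q + 1) ^ 2 + Q + 1) := by
  have h1 : (4 * (4 * 2 ^ e) ^ (Q + 1)) ^ (Q + 1) = 2 ^ ((2 + (2 + e) * (Q + 1)) * (Q + 1)) := by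
    rw [pow_mul 2, pow_add 2 2, pow_mul 2, pow_add 2 2]
    norm_num
  have h2 : 2 ^ ((2 + (2 + e) * (Q + 1)) * (Q + 1)) ≤ 2 ^ ((e + 4) * (Q + 1) ^ 2) :=
    Nat.pow_le_pow_right (by norm_num) (by nlinarith [Nat.zero_le (Q * Q), Nat.zero_le Q])
  have h3 : Q ≤ 2 ^ Q := Nat.lt_two_pow_self.le
  have h4 := Nat.mul_le_mul h2 h3
  have h5 : 0 < 2 ^ ((e + 4) * (Q + 1) ^ 2) * 2 ^ Q := by positivity
  unfold g42_bs
  rw [h1, pow_succ, pow_add]
  omega

theorem g42_rounds' (Q : ℕ) (hG : ∀ L : ℕ, g42_Gad (Fin L) Q) :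
    ∃ C : ℕ, ∀ (k d L : ℕ) (S : Finset (Fin L × Fin L × Fin L))
      (r : Fin L × Fin L × Fin L → Fin L × Fin L × Fin L → Prop),
      (∀ p ∈ S, ∀ q ∈ S, p ≠ q → r p q ∨ r q p) → 2 ^ (C * (d + k + 1)) ≤ L →
      L ^ 3 ≤ 2 ^ d * S.card →
      ∃ (l : List (Fin L × Fin L × Fin L)) (A B D : Finset (Fin L)), l.Pairwise r ∧
        (∀ p ∈ l, p ∈ S ∧ p.1 ∈ A ∧ p.2.1 ∈ B ∧ p.2.2 ∈ D) ∧
        A.card + B.card + D.card + k ≤ l.length := by
  obtain ⟨Q1, hQ1⟩ : ∃ Q1, Q1 = g42_bs 2 Q := ⟨_, rfl⟩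
  refine ⟨(Q1 ^ 3 + 5) * (Q1 + 1) ^ 2 + Q1 + 1, fun k d L S r hr hL hS => ?_⟩
  refine g42_rounds Q (hG L) r k (2 ^ d) S (by positivity) hr ?_ (by rwa [Fintype.card_fin])
  rw [← hQ1, Fintype.card_fin, ← pow_succ', ← pow_mul, ← pow_add]
  refine (g42_bs_pow _ _).trans (le_trans (Nat.pow_le_pow_right (by norm_num) ?_) hL)
  generalize Q1 ^ 3 = a
  generalize (Q1 + 1) ^ 2 = b
  have h1 : d + (a + 1) * k + 4 ≤ (a + 5) * (d + k + 1) := by
    nlinarith [Nat.zero_le (a * d), Nat.zero_le d, Nat.zero_le k]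
  have h2 := Nat.mul_le_mul_right b h1
  have h3 : Q1 + 1 ≤ (Q1 + 1) * (d + k + 1) := Nat.le_mul_of_pos_right _ (by omega)
  nlinarith

theorem box (q : ℕ) : ∃ C : ℕ, ∀ (d L : ℕ) (S : Finset (Fin L × Fin L × Fin L)),
    2 ^ (C * (d + 1)) ≤ L → L ^ 3 ≤ 2 ^ d * S.card →
    ∃ A B D : Finset (Fin L), A.card = q ∧ B.card = q ∧ D.card = q ∧ A ×ˢ B ×ˢ D ⊆ S := by
  refine ⟨4 * (q + 1) ^ 2 + q + 1, fun d L S hL hS => ?_⟩
  refine g42_box univ univ univ L (by simp) (by simp) (by simp) S (fun p _ => by simp) (2 ^ d) q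
    (by positivity) hS
    ((g42_bs_pow _ _).trans (le_trans (Nat.pow_le_pow_right (by norm_num) ?_) hL))
  generalize (q + 1) ^ 2 = b
  nlinarith [Nat.zero_le (d * b), Nat.zero_le (d * q)]

theorem g42_gad_of_fin (α : Type) (q : ℕ)
    (h : ∀ r : Fin q × Fin q × Fin q → Fin q × Fin q × Fin q → Prop,
      (∀ p p', p ≠ p' → r p p' ∨ r p' p) →
      ∃ (l : List (Fin q × Fin q × Fin q)) (A B D : Finset (Fin q)), l.Pairwise r ∧
        (∀ p ∈ l, p.1 ∈ A ∧ p.2.1 ∈ B ∧ p.2.2 ∈ D) ∧ A.card + B.card + D.card + 1 ≤ l.length) :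
    g42_Gad α q := by
  classical
  intro A B C hA hB hC r hr
  have ex : ∀ X : Finset α, X.card = q → ∃ f : Fin q → α, Function.Injective f ∧ ∀ i, f i ∈ X :=
    fun X hX => ⟨fun i => ((X.equivFinOfCardEq hX).symm i : α),
      Subtype.val_injective.comp (X.equivFinOfCardEq hX).symm.injective,
      fun i => ((X.equivFinOfCardEq hX).symm i).2⟩
  obtain ⟨a, ha, ha'⟩ := ex A hA
  obtain ⟨b, hb, hb'⟩ := ex B hB
  obtain ⟨c, hc, hc'⟩ := ex C hC
  obtain ⟨F, hF⟩ : ∃ F : Fin q × Fin q × Fin q → α × α × α,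
      ∀ p, F p = (a p.1, b p.2.1, c p.2.2) := ⟨_, fun _ => rfl⟩
  have hm : ∀ p, F p ∈ A ×ˢ B ×ˢ C := fun p => by
    rw [hF, mem_product, mem_product]
    exact ⟨ha' _, hb' _, hc' _⟩
  obtain ⟨l, A', B', C', hl, hl2, hl3⟩ := h (fun p p' => r (F p) (F p')) (fun p p' hne =>
    hr _ (hm p) _ (hm p') fun e => hne (by
      rw [hF, hF, Prod.mk.injEq, Prod.mk.injEq] at e
      exact Prod.ext (ha e.1) (Prod.ext (hb e.2.1) (hc e.2.2))))
  refine ⟨l.map F, A'.image a, B'.image b, C'.image c, List.pairwise_map.2 hl, ?_, ?_⟩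
  · intro p hp
    obtain ⟨x, hx, rfl⟩ := List.mem_map.1 hp
    refine ⟨hm x, ?_⟩
    rw [hF]
    exact ⟨mem_image_of_mem _ (hl2 x hx).1, mem_image_of_mem _ (hl2 x hx).2.1,
      mem_image_of_mem _ (hl2 x hx).2.2⟩
  · rw [List.length_map, card_image_of_injective _ ha, card_image_of_injective _ hb,
      card_image_of_injective _ hc]
    exact hl3

theorem rounds_of_grid
    (h : ∃ q : ℕ, ∀ r : Fin q × Fin q × Fin q → Fin q × Fin q × Fin q → Prop,
      (∀ p p', p ≠ p' → r p p' ∨ r p' p) →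
      ∃ (l : List (Fin q × Fin q × Fin q)) (A B D : Finset (Fin q)), l.Pairwise r ∧
        (∀ p ∈ l, p.1 ∈ A ∧ p.2.1 ∈ B ∧ p.2.2 ∈ D) ∧ A.card + B.card + D.card + 1 ≤ l.length) :
    ∃ C : ℕ, ∀ (k d L : ℕ) (S : Finset (Fin L × Fin L × Fin L))
      (r : Fin L × Fin L × Fin L → Fin L × Fin L × Fin L → Prop),
      (∀ p ∈ S, ∀ q ∈ S, p ≠ q → r p q ∨ r q p) → 2 ^ (C * (d + k + 1)) ≤ L →
      L ^ 3 ≤ 2 ^ d * S.card →
      ∃ (l : List (Fin L × Fin L × Fin L)) (A B D : Finset (Fin L)), l.Pairwise r ∧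
        (∀ p ∈ l, p ∈ S ∧ p.1 ∈ A ∧ p.2.1 ∈ B ∧ p.2.2 ∈ D) ∧
        A.card + B.card + D.card + k ≤ l.length := by
  obtain ⟨q, hq⟩ := h
  exact g42_rounds' q fun L => g42_gad_of_fin (Fin L) q hq

end Pool.Agent.Work.MP_e10cd8_co.Tp
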