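import Pool.Agent.Work.MP_e10cd8_co.Tp.Box
import Pool.Agent.Work.MP_e10cd8_co.Tn.Grid

/-! Chains with a surplus of points over coordinates in dense subsets of a cube. -/

set_option autoImplicit false

namespace Pool.Agent.Work.MP_e10cd8_co.Tp

open Finset

theorem grid_one : ∃ q : ℕ, ∀ r : Fin q × Fin q × Fin q → Fin q × Fin q × Fin q → Prop,
    (∀ p p', p ≠ p' → r p p' ∨ r p' p) →
    ∃ (l : List (Fin q × Fin q × Fin q)) (A B D : Finset (Fin q)), l.Pairwise r ∧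
      (∀ p ∈ l, p.1 ∈ A ∧ p.2.1 ∈ B ∧ p.2.2 ∈ D) ∧ A.card + B.card + D.card + 1 ≤ l.length := by
  obtain ⟨L1, L2, L3, h⟩ := Tn.grid 4 (by norm_num)
  refine ⟨L1 + L2 + L3, fun r hr => ?_⟩
  have h1 : L1 ≤ L1 + L2 + L3 := by omega
  have h2 : L2 ≤ L1 + L2 + L3 := by omega
  have h3 : L3 ≤ L1 + L2 + L3 := by omega
  obtain ⟨F, hF⟩ : ∃ F : Fin L1 × Fin L2 × Fin L3 →
      Fin (L1 + L2 + L3) × Fin (L1 + L2 + L3) × Fin (L1 + L2 + L3),
      ∀ p, F p = (Fin.castLE h1 p.1, Fin.castLE h2 p.2.1, Fin.castLE h3 p.2.2) := ⟨_, fun _ => rfl⟩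
  obtain ⟨a, b, c, z, hz⟩ := h (fun p p' => r (F p) (F p')) (fun p p' hne => hr _ _ fun e => hne (by
    rw [hF, hF, Prod.mk.injEq, Prod.mk.injEq] at e
    exact Prod.ext (Fin.castLE_injective _ e.1)
      (Prod.ext (Fin.castLE_injective _ e.2.1) (Fin.castLE_injective _ e.2.2))))
  refine ⟨List.ofFn fun i => F (a (z i).1, b (z i).2.1, c (z i).2.2),
    univ.image fun i => Fin.castLE h1 (a i), univ.image fun i => Fin.castLE h2 (b i),
    univ.image fun i => Fin.castLE h3 (c i), List.pairwise_ofFn.2 fun i j hij => hz i j hij,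
    fun p hp => ?_, ?_⟩
  · obtain ⟨i, rfl⟩ := List.mem_ofFn.1 hp
    rw [hF]
    exact ⟨mem_image_of_mem _ (mem_univ _), mem_image_of_mem _ (mem_univ _),
      mem_image_of_mem _ (mem_univ _)⟩
  · have e1 := card_image_le (s := univ) (f := fun i => Fin.castLE h1 (a i))
    have e2 := card_image_le (s := univ) (f := fun i => Fin.castLE h2 (b i))
    have e3 := card_image_le (s := univ) (f := fun i => Fin.castLE h3 (c i))
    rw [card_univ, Fintype.card_fin] at e1 e2 e3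
    rw [List.length_ofFn]
    omega

theorem rounds : ∃ C : ℕ, ∀ (k d L : ℕ) (S : Finset (Fin L × Fin L × Fin L))
    (r : Fin L × Fin L × Fin L → Fin L × Fin L × Fin L → Prop),
    (∀ p ∈ S, ∀ q ∈ S, p ≠ q → r p q ∨ r q p) → 2 ^ (C * (d + k + 1)) ≤ L →
    L ^ 3 ≤ 2 ^ d * S.card →
    ∃ (l : List (Fin L × Fin L × Fin L)) (A B D : Finset (Fin L)), l.Pairwise r ∧
      (∀ p ∈ l, p ∈ S ∧ p.1 ∈ A ∧ p.2.1 ∈ B ∧ p.2.2 ∈ D) ∧
      A.card + B.card + D.card + k ≤ l.length :=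
  rounds_of_grid grid_one

end Pool.Agent.Work.MP_e10cd8_co.Tp
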